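import Mathlib

set_option autoImplicit false
set_option synthInstance.maxSize 2048

namespace Pool.Agent.Results.MP_f7d7fe_co.AllSizes

/-- A lattice translate: a coset of a finite-index subgroup. -/
def IsTr {d : ℕ} (S : Set (Fin d → ℤ)) : Prop :=
  ∃ (v : Fin d → ℤ) (L : AddSubgroup (Fin d → ℤ)), L.FiniteIndex ∧ S = {x | x - v ∈ L}

/-- A lattice tiling with `n` lattice translates. -/
def IsTiling {d n : ℕ} (T : Fin n → Set (Fin d → ℤ)) : Prop :=
  (∀ i, IsTr (T i)) ∧ (∀ i j, i ≠ j → Disjoint (T i) (T j)) ∧ ⋃ i, T i = Set.univ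

/-- The tiling splits; the partition of the indices is given by a surjection onto the `k` blocks. -/
def Splits {d n : ℕ} (T : Fin n → Set (Fin d → ℤ)) : Prop :=
  ∃ k, 2 ≤ k ∧ ∃ b : Fin n → Fin k, Function.Surjective b ∧ (∃ i j, i ≠ j ∧ b i = b j) ∧
    ∀ l, IsTr (⋃ i ∈ {i | b i = l}, T i)

def G0 {A : Type} [AddCommGroup A] (n : ℕ) (c : A → ℕ) : Prop :=
  (∀ p, c p < n) ∧ (∀ i < n, ∃ p, c p = i) ∧ (∀ p q r, c p = c q → c p = c r → c (p - q + r) = c p) ∧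
    ∀ I : ℕ → Prop, (∀ p q r, I (c p) → I (c q) → I (c r) → I (c (p - q + r))) →
      ∀ i < n, ∀ j < n, I i → I j → i ≠ j → ∀ l < n, I l

theorem pull {A B : Type} [AddCommGroup A] [AddCommGroup B] {n : ℕ} {c : A → ℕ} (h : G0 n c) (f : B →+ A)
    (hf : Function.Surjective f) : G0 n fun p => c (f p) := by
  obtain ⟨h1, h2, h3, h4⟩ := h
  refine ⟨fun p => h1 _, fun i hi => ?_, fun p q r a b => by simpa using h3 _ _ _ a b, fun I hI => h4 I ?_⟩
  · obtain ⟨p, rfl⟩ := h2 i hi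
    obtain ⟨q, rfl⟩ := hf p
    exact ⟨q, rfl⟩
  · simp only [hf.forall]
    simpa using hI

theorem fin {A : Type} [AddCommGroup A] {n : ℕ} {c : A → ℕ} (h1 : ∀ p, c p < n) (h2 : ∀ i < n, ∃ p, c p = i)
    (h3 : ∀ p q r, c p = c q → c p = c r → c (p - q + r) = c p)
    (h4 : ∀ s ∈ (Finset.range n).powerset, (∀ p, c p ∈ s → ∀ q, c q ∈ s → ∀ r, c r ∈ s → c (p - q + r) ∈ s) →
      ∀ i ∈ s, ∀ j ∈ s, i ≠ j → ∀ l < n, l ∈ s) : G0 n c := by
  classical
  refine ⟨h1, h2, h3, fun I hI i hi j hj a b e l hl => ?_⟩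
  have := h4 ((Finset.range n).filter I) (by simp) (fun p x q y r z => by
    simp only [Finset.mem_filter, Finset.mem_range, h1, true_and] at *
    exact hI p q r x y z) i (by simp [*]) j (by simp [*]) e l hl
  exact (Finset.mem_filter.mp this).2

theorem fin3 {n N : ℕ} {c : (Fin 3 → ℤ) → ℕ} (h : G0 n c) (hN : N ≠ 0) (hp : ∀ p e, c (p + N • e) = c p) :
    ∃ T : Fin n → Set (Fin 3 → ℤ), IsTiling T ∧ ¬Splits T := by
  obtain ⟨h1, h2, h3, h4⟩ := h
  refine ⟨fun i => {p | c p = i}, ⟨fun i => ?_, fun i j e => Set.disjoint_left.mpr fun p a b =>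
    e (Fin.ext (a.symm.trans b)), Set.eq_univ_of_forall fun p => Set.mem_iUnion.mpr ⟨⟨_, h1 p⟩, rfl⟩⟩, ?_⟩
  · obtain ⟨v, hv⟩ := h2 i i.2
    let L : AddSubgroup (Fin 3 → ℤ) :=
      { carrier := {x | c (x + v) = i}
        zero_mem' := by simpa
        add_mem' := fun {a b} x y => by
          have := h3 (a + v) v (b + v) (x.trans hv.symm) (x.trans y.symm)
          rw [show a + v - v + (b + v) = a + b + v by abel] at this
          exact this.trans x
        neg_mem' := fun {a} x => by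
          have := h3 v (a + v) v (hv.trans x.symm) rfl
          rw [show v - (a + v) + v = -a + v by abel] at this
          exact this.trans hv }
    have := AddSubgroup.finiteIndex_range_nsmulAddMonoidHom_of_fg (Fin 3 → ℤ) hN
    refine ⟨v, L, AddSubgroup.finiteIndex_of_le (H := (nsmulAddMonoidHom N).range) ?_, ?_⟩
    · rintro _ ⟨e, rfl⟩
      exact (congrArg c (add_comm _ _)).trans ((hp v e).trans hv)
    · ext x; show c x = i ↔ c (x - v + v) = i; rw [sub_add_cancel]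
  · rintro ⟨k, hk, b, hb, ⟨i, j, e, e'⟩, H⟩
    obtain ⟨v, L, -, hL⟩ := H (b i)
    have m : ∀ p, p - v ∈ L ↔ b ⟨c p, h1 p⟩ = b i := fun p => by
      have := Set.ext_iff.mp hL p
      simp only [Set.mem_iUnion, Set.mem_setOf_eq] at this
      rw [← this]
      exact ⟨fun ⟨u, a, w⟩ => by rwa [show (⟨c p, h1 p⟩ : Fin n) = u from Fin.ext w], fun a => ⟨_, a, rfl⟩⟩
    have := h4 (fun l => ∃ h : l < n, b ⟨l, h⟩ = b i) (fun p q r ⟨_, x⟩ ⟨_, y⟩ ⟨_, z⟩ => ⟨h1 _, (m _).mp (by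
      convert L.add_mem (L.sub_mem ((m p).mpr x) ((m q).mpr y)) ((m r).mpr z) using 1; abel)⟩)
      i i.2 j j.2 ⟨i.2, rfl⟩ ⟨j.2, e'.symm⟩ fun a => e (Fin.ext a)
    haveI nt : Nontrivial (Fin k) := Fin.nontrivial_iff_two_le.mpr hk
    obtain ⟨l, hl⟩ := exists_ne (b i)
    obtain ⟨l, rfl⟩ := hb l
    exact hl (this l l.2).2

abbrev K := ZMod 2 × ZMod 2

def G1 (n : ℕ) (c : K × ℤ → ℕ) : Prop := G0 n c ∧ ∃ N : ℕ, N ≠ 0 ∧ ∀ a z e, c (a, z + N * e) = c (a, z)

def G2 (n : ℕ) (c : K × ℤ → ℕ) : Prop := G1 n c ∧ (∀ a z, c (a, z) = c ((0, 1), 0) ↔ a = (0, 1)) ∧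
  ∀ a, a ≠ (0, 1) → ∃ z w, c (a, z) ≠ c (a, w)

theorem out {n : ℕ} {c : K × ℤ → ℕ} (h : G1 n c) : ∃ T : Fin n → Set (Fin 3 → ℤ), IsTiling T ∧ ¬Splits T := by
  obtain ⟨h, N, hN, hp⟩ := h
  let f : (Fin 3 → ℤ) →+ K × ℤ := AddMonoidHom.mk' (fun v => ((v 0, v 1), v 2)) fun a b => by simp
  refine fin3 (pull h f ?_) (mul_ne_zero two_ne_zero hN) fun p e => ?_
  · rintro ⟨⟨a, b⟩, z⟩
    exact ⟨![a.cast, b.cast, z], by simp [f]⟩
  · rw [← hp (f p).1 (f p).2 (2 * e 2)]; congr 1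
    have : (2 : ZMod 2) = 0 := rfl
    simp [f, this]; ring

def ph (N : ℕ) : K × ℤ →+ K × ZMod N := (AddMonoidHom.id K).prodMap (Int.castAddHom _)

theorem base {n : ℕ} (N : ℕ) (hN : N ≠ 0) {c : K × ZMod N → ℕ} (h : G0 n c) : G1 n fun p => c (ph N p) :=
  ⟨pull h _ fun ⟨a, z⟩ => ⟨(a, z.cast), by simp [ph]⟩, N, hN, fun a z e => by simp [ph]⟩

def nw (n : ℕ) (c : K × ℤ → ℕ) (p : K × ℤ) : ℕ :=
  if p.1 = (0, 1) then c ((0, 1), 0) else if p.2 % 2 = 0 then c (p.1, p.2 / 2) else if p.1 = (1, 1) then n else n + 1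

theorem step {n : ℕ} {c : K × ℤ → ℕ} (h : G2 n c) : G2 (n + 2) (nw n c) := by
  obtain ⟨⟨⟨h1, h2, h3, h4⟩, N, hN, hp⟩, hV, h5⟩ := h
  have e0 : ∀ a z, nw n c (a, 2 * z) = c (a, z) := fun a z => by
    simp only [nw]; split_ifs with x y
    · exact ((hV a z).mpr x).symm
    · simp
    all_goals omega
  have e1 : ∀ a z, nw n c (a, 2 * z + 1) =
      if a = (0, 1) then c ((0, 1), 0) else if a = (1, 1) then n else n + 1 := fun a z => by
    simp only [nw, if_neg (show ¬(2 * z + 1) % 2 = 0 by omega)]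
  have eV : ∀ z, nw n c ((0, 1), z) = c ((0, 1), 0) := fun z => if_pos rfl
  have par : ∀ z : ℤ, ∃ w, z = 2 * w ∨ z = 2 * w + 1 := fun z => ⟨z / 2, by omega⟩
  have V : ∀ a z, nw n c (a, z) = nw n c ((0, 1), 0) ↔ a = (0, 1) := fun a z => by
    obtain ⟨w, rfl | rfl⟩ := par z
    · rw [e0, eV, hV]
    · have := h1 ((0, 1), 0)
      rw [e1, eV]; split_ifs with x y
      exacts [iff_of_true rfl x, iff_of_false (by omega) x, iff_of_false (by omega) x]
  refine ⟨⟨⟨?_, fun i hi => ?_, ?_, fun I hI => ?_⟩, 2 * N, by omega, fun a z e => ?_⟩, V, fun a ha =>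
    ⟨2 * 0, 2 * 0 + 1, ?_⟩⟩
  · rintro ⟨a, z⟩
    have := h1 ((0, 1), 0); have := h1 (a, z / 2)
    simp only [nw]; split_ifs <;> omega
  · rcases (by omega : i < n ∨ i = n ∨ i = n + 1) with x | rfl | rfl
    · obtain ⟨⟨a, z⟩, rfl⟩ := h2 i x
      exact ⟨_, e0 a z⟩
    · exact ⟨_, e1 (1, 1) 0⟩
    · exact ⟨_, e1 (0, 0) 0⟩
  · rintro ⟨a, x⟩ ⟨b, y⟩ ⟨d, z⟩ u v
    by_cases ha : a = (0, 1)
    · subst ha
      rw [eV, ← eV 0, eq_comm, V] at u v
      simp [u, v, eV]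
    have hb : b ≠ (0, 1) := fun e => ha ((V a x).mp (by rw [u, e, eV, eV]))
    have hd : d ≠ (0, 1) := fun e => ha ((V a x).mp (by rw [v, e, eV, eV]))
    obtain ⟨x, rfl | rfl⟩ := par x <;> obtain ⟨y, rfl | rfl⟩ := par y <;> obtain ⟨z, rfl | rfl⟩ := par z <;>
      simp only [e0, e1, if_neg ha, if_neg hb, if_neg hd] at u v ⊢
    · rw [← h3 _ _ _ u v]; convert e0 _ _ using 2; ext <;> simp; ring
    any_goals
      have := h1 (a, x); have := h1 (b, y); have := h1 (d, z)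
      exfalso; split_ifs at u v <;> omega
    rw [show ((a, 2 * x + 1) - (b, 2 * y + 1) + (d, 2 * z + 1) : K × ℤ) = (a - b + d, 2 * (x - y + z) + 1) by
      ext <;> simp; ring, e1]
    have k : ∀ a b d : K, a ≠ (0, 1) → b ≠ (0, 1) → d ≠ (0, 1) → (a = (1, 1) ↔ b = (1, 1)) →
        (a = (1, 1) ↔ d = (1, 1)) → a - b + d ≠ (0, 1) ∧ (a - b + d = (1, 1) ↔ a = (1, 1)) := by decide +kernel
    have := k a b d ha hb hd (by split_ifs at u with x y y <;> simp only [x, y] <;> omega)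
      (by split_ifs at v with x y y <;> simp only [x, y] <;> omega)
    simp only [if_neg this.1, this.2]
  · have J := h4 I fun ⟨a, x⟩ ⟨b, y⟩ ⟨d, z⟩ u v w => by
      rw [← e0] at u v w
      have := hI _ _ _ u v w
      rwa [show ((a, 2 * x) - (b, 2 * y) + (d, 2 * z) : K × ℤ) = (a - b + d, 2 * (x - y + z)) by
        ext <;> simp; ring, e0] at this
    have A : (∀ l < n, I l) → ∀ l < n + 2, I l := fun H l hl => by
      have t : ∀ a, I (nw n c (a, 2 * 0 + 1)) := fun a => by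
        simpa using hI (a, 2 * 0) ((0, 1), 0) ((0, 1), 1) (e0 a 0 ▸ H _ (h1 _)) (eV 0 ▸ H _ (h1 _)) (eV 1 ▸ H _ (h1 _))
      rcases (by omega : l < n ∨ l = n ∨ l = n + 1) with x | rfl | rfl
      exacts [H l x, by have := t (1, 1); rwa [e1] at this, by have := t (0, 0); rwa [e1] at this]
    have B : ∀ i < n, ∀ j, n ≤ j → j < n + 2 → I i → I j → ∀ l < n, I l := fun i hi j j1 j2 u v => by
      obtain ⟨b, hb, t⟩ : ∃ b, b ≠ (0, 1) ∧ ∀ z, I (nw n c (b, 2 * z + 1)) := by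
        rcases (by omega : j = n ∨ j = n + 1) with rfl | rfl
        exacts [⟨(1, 1), by decide, fun z => e1 _ z ▸ v⟩, ⟨(0, 0), by decide, fun z => e1 _ z ▸ v⟩]
      obtain ⟨⟨a, x⟩, rfl⟩ := h2 i hi
      by_cases ha : a = (0, 1)
      · rw [(hV a x).mpr ha] at u
        have := hI _ ((0, 1), 1) ((0, 1), 0) (t 0) (eV 1 ▸ u) (eV 0 ▸ u)
        rw [show ((b, 2 * 0 + 1) - ((0, 1), 1) + ((0, 1), 0) : K × ℤ) = (b, 2 * 0) by simp, e0] at this
        exact J _ (h1 _) _ (h1 _) this u fun e => hb ((hV _ _).mp e)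
      · have s : ∀ z, I (c (a, z)) := fun z => by
          have := hI _ _ _ (t z) (t x) (e0 a x ▸ u)
          rwa [show ((b, 2 * z + 1) - (b, 2 * x + 1) + (a, 2 * x) : K × ℤ) = (a, 2 * z) by simp, e0] at this
        obtain ⟨z, w, e⟩ := h5 a ha
        exact J _ (h1 _) _ (h1 _) (s z) (s w) e
    intro i hi j hj u v e
    refine A ?_
    by_cases x : i < n <;> by_cases y : j < n
    · exact J i x j y u v e
    · exact B i x j (by omega) hj u v
    · exact B j y i (by omega) hi v u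
    · have p : I n ∧ I (n + 1) := by
        rcases (by omega : i = n ∧ j = n + 1 ∨ j = n ∧ i = n + 1) with ⟨rfl, rfl⟩ | ⟨rfl, rfl⟩
        exacts [⟨u, v⟩, ⟨v, u⟩]
      exact B _ (h1 ((0, 1), 0)) n le_rfl (by omega) (hI ((0, 0), 2 * 0 + 1) ((1, 0), 2 * 0 + 1) ((1, 1), 2 * 0 + 1)
        (e1 _ 0 ▸ p.2) (e1 _ 0 ▸ p.2) (e1 _ 0 ▸ p.1)) p.1
  · obtain ⟨w, rfl | rfl⟩ := par z
    · rw [show 2 * w + (2 * N : ℕ) * e = 2 * (w + N * e) by push_cast; ring, e0, e0, hp]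
    · rw [show 2 * w + 1 + (2 * N : ℕ) * e = 2 * (w + N * e) + 1 by push_cast; ring, e1, e1]
  · have := h1 (a, 0)
    rw [e0, e1, if_neg ha]; split_ifs <;> omega

theorem base2 {n : ℕ} (N : ℕ) (hN : N ≠ 0) {c : K × ZMod N → ℕ} (h : G0 n c)
    (h1 : ∀ a z, c (a, z) = c ((0, 1), 0) ↔ a = (0, 1)) (h2 : ∀ a, a ≠ (0, 1) → ∃ z w, c (a, z) ≠ c (a, w)) (k : ℕ) :
    ∃ c, G2 (n + 2 * k) c := by
  induction k with
  | zero =>
    refine ⟨_, base N hN h, fun a z => by simpa [ph] using h1 a z, fun a ha => ?_⟩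
    obtain ⟨z, w, e⟩ := h2 a ha
    exact ⟨z.cast, w.cast, by simpa [ph] using e⟩
  | succ k ih => exact ⟨_, step ih.choose_spec⟩

def c4 (p : K × ZMod 2) : ℕ :=
  if p.1 = (0, 1) then 0 else if p.2 = 1 then (if p.1 = (1, 1) then 1 else 2) else if p.1 = (0, 0) then 1 else 3

def c7 (p : K × ZMod 3) : ℕ :=
  if p.1 = (0, 1) then 0 else if p.2 = 0 then (if p.1 = (0, 0) then 1 else 2) else
    if p.1 = (1, 1) then 2 + p.2.val else 4 + p.2.val

theorem result (n : ℕ) (hn : 1 ≤ n) : ∃ d, 1 ≤ d ∧ ∃ T : Fin n → Set (Fin d → ℤ), IsTiling T ∧ ¬Splits T := by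
  refine ⟨3, by omega, ?_⟩
  rcases (by omega : n = 1 ∨ n = 2 ∨ n = 3 ∨ n = 5 ∨ n = 4 + 2 * ((n - 4) / 2) ∨ n = 7 + 2 * ((n - 7) / 2)) with
    rfl | rfl | rfl | rfl | e | e
  · exact out (base 1 one_ne_zero (c := fun p => p.2.val)
      (fin (by decide +kernel) (by decide +kernel) (by decide +kernel) (by decide +kernel)))
  · exact out (base 2 two_ne_zero (c := fun p => p.2.val)
      (fin (by decide +kernel) (by decide +kernel) (by decide +kernel) (by decide +kernel)))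
  · exact out (base 3 three_ne_zero (c := fun p => p.2.val)
      (fin (by decide +kernel) (by decide +kernel) (by decide +kernel) (by decide +kernel)))
  · exact out (base 5 (by omega) (c := fun p => p.2.val)
      (fin (by decide +kernel) (by decide +kernel) (by decide +kernel) (by decide +kernel)))
  · rw [e]
    exact out (base2 2 two_ne_zero (c := c4) (fin (by decide +kernel) (by decide +kernel) (by decide +kernel) (by decide +kernel))
      (by decide +kernel) (by decide +kernel) _).choose_spec.1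
  · rw [e]
    exact out (base2 3 three_ne_zero (c := c7) (fin (by decide +kernel) (by decide +kernel) (by decide +kernel) (by decide +kernel))
      (by decide +kernel) (by decide +kernel) _).choose_spec.1

end Pool.Agent.Results.MP_f7d7fe_co.AllSizes
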